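import Pool.Agent.WAV.Stmts
import Pool.Agent.TJ2.AsmC

/-!
# Module FAC (MP_cb388a_ag, helper82): morphisms fixed by Frobenius factor through the unit
-/

open CategoryTheory MonoidalCategory BraidedCategory Polynomial

universe w v u

namespace Pool.Agent.WAV

open Pool.Agent.TJ2

noncomputable section

set_option linter.unusedSectionVars false

/-! ## Linear algebra: the identity principle modulo a stable subspace -/

section LinAlg

variable {V V' : Type w} [AddCommGroup V] [Module ℚ V] [AddCommGroup V'] [Module ℚ V']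

lemma FAC_lpow (π : V →ₗ[ℚ] V') (T : Module.End ℚ V) (T' : Module.End ℚ V')
    (h : ∀ v, π (T v) = T' (π v)) (n : ℕ) (v : V) : π ((T ^ n) v) = (T' ^ n) (π v) := by
  induction n with
  | zero => rfl
  | succ n ih =>
    rw [pow_succ', pow_succ', Module.End.mul_apply, Module.End.mul_apply, h, ih]

lemma FAC_laeval (π : V →ₗ[ℚ] V') (T : Module.End ℚ V) (T' : Module.End ℚ V')
    (h : ∀ v, π (T v) = T' (π v)) (P : ℚ[X]) (v : V) :
    π (aeval T P v) = aeval T' P (π v) := by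
  induction P using Polynomial.induction_on' with
  | add p q hp hq =>
    rw [map_add, map_add, LinearMap.add_apply, LinearMap.add_apply, map_add, hp, hq]
  | monomial n a =>
    rw [aeval_monomial, aeval_monomial, Module.End.mul_apply, Module.End.mul_apply,
      Module.algebraMap_end_apply, Module.algebraMap_end_apply, map_smul, FAC_lpow π T T' h]

lemma FAC_lev2 (π : V →ₗ[ℚ] V') (T S : Module.End ℚ V) (T' S' : Module.End ℚ V')
    (h : ∀ v, π (T v) = T' (π v)) (h' : ∀ v, π (S v) = S' (π v)) (n : ℕ) (E : ℕ → ℕ → ℚ) (v : V) :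
    π (ev2 n E T S v) = ev2 n E T' S' (π v) := by
  unfold ev2
  rw [LinearMap.sum_apply, LinearMap.sum_apply, map_sum]
  refine Finset.sum_congr rfl (fun i _ => ?_)
  rw [LinearMap.sum_apply, LinearMap.sum_apply, map_sum]
  refine Finset.sum_congr rfl (fun j _ => ?_)
  rw [LinearMap.smul_apply, LinearMap.smul_apply, map_smul, Module.End.mul_apply,
    Module.End.mul_apply, FAC_lpow π T T' h, FAC_lpow π S S' h']

lemma FAC_lprod (π : V →ₗ[ℚ] V') : ∀ (m : ℕ) (φ : Fin m → Module.End ℚ V)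
    (φ' : Fin m → Module.End ℚ V') (_ : ∀ i v, π (φ i v) = φ' i (π v)) (v : V),
    π ((List.ofFn φ).prod v) = (List.ofFn φ').prod (π v)
  | 0, _, _, _, _ => rfl
  | m + 1, φ, φ', h, v => by
    rw [List.ofFn_succ, List.ofFn_succ, List.prod_cons, List.prod_cons, Module.End.mul_apply,
      Module.End.mul_apply, h,
      FAC_lprod π m (fun i => φ i.succ) (fun i => φ' i.succ) (fun i => h i.succ)]

lemma FAC_alg (hALG : S_ALG.{w}) (I : Submodule ℚ V) (m : ℕ)
    (φ : Fin (m + 1) → Module.End ℚ V) (P : Fin (m + 1) → ℚ[X]) (c : ℚ) (J : Finset (Fin m))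
    (n : ℕ) (D : ℕ → ℕ → ℚ) (x : V) (hI : ∀ i, ∀ v ∈ I, φ i v ∈ I)
    (h1 : ∀ i j, Commute (φ i) (φ j)) (h2 : ∀ i, Squarefree (P i))
    (h3 : ∀ i, aeval (φ i) (P i) = 0)
    (h4 : ∀ α : Fin (m + 1) → Qb, (∀ i, aeval (α i) (P i) = 0) →
      algebraMap ℚ Qb c * ∏ i, α i = 1 → ∃ j ∈ J, ev2 n D (α 0) (α j.succ) = 1)
    (h5 : c • (List.ofFn φ).prod x = x) (h6 : ∀ j ∈ J, ev2 n D (φ 0) (φ j.succ) x ∈ I) :
    x ∈ I := by
  have hI' : ∀ i, I ≤ I.comap (φ i) := fun i v hv => hI i v hv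
  have hrel : ∀ i v, I.mkQ (φ i v) = (I.mapQ I (φ i) (hI' i)) (I.mkQ v) := by
    intro i v
    rfl
  rw [← Submodule.Quotient.mk_eq_zero I]
  apply hALG (V ⧸ I) m (fun i => I.mapQ I (φ i) (hI' i)) P c J n D (I.mkQ x)
  · intro i j
    apply LinearMap.ext
    intro y
    obtain ⟨v, rfl⟩ := I.mkQ_surjective y
    change (I.mapQ I (φ i) (hI' i)) ((I.mapQ I (φ j) (hI' j)) (I.mkQ v)) =
      (I.mapQ I (φ j) (hI' j)) ((I.mapQ I (φ i) (hI' i)) (I.mkQ v))
    rw [← hrel, ← hrel, ← hrel, ← hrel]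
    have := LinearMap.congr_fun (h1 i j).eq v
    exact congrArg I.mkQ this
  · exact h2
  · intro i
    apply LinearMap.ext
    intro y
    obtain ⟨v, rfl⟩ := I.mkQ_surjective y
    rw [← FAC_laeval I.mkQ (φ i) (I.mapQ I (φ i) (hI' i)) (hrel i), h3 i]
    rfl
  · exact h4
  · rw [← FAC_lprod I.mkQ (m + 1) φ (fun i => I.mapQ I (φ i) (hI' i)) hrel, ← map_smul, h5]
  · intro j hj
    rw [← FAC_lev2 I.mkQ (φ 0) (φ j.succ) (I.mapQ I (φ 0) (hI' 0))
      (I.mapQ I (φ j.succ) (hI' j.succ)) (hrel 0) (hrel j.succ)]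
    exact (Submodule.Quotient.mk_eq_zero I).mpr (h6 j hj)

end LinAlg

section

variable {C : Type u} [Category.{v} C] [Preadditive C] [Linear ℚ C] [MonoidalCategory C]
  [SymmetricCategory C] [MonoidalPreadditive C] [MonoidalLinear ℚ C] [RightRigidCategory C]

/-- `thru` is stable under composition on the right -/
lemma FAC_post {T A B B' : C} (g : B ⟶ B') (x : A ⟶ B) (hx : x ∈ thru T A B) :
    x ≫ g ∈ thru T A B' := by
  have h1 : thru T A B ≤ (thru T A B').comap (Linear.rightComp ℚ A g) := by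
    refine Submodule.span_le.mpr ?_
    rintro z ⟨r, s, rfl⟩
    change (r ≫ s) ≫ g ∈ thru T A B'
    exact Submodule.subset_span ⟨r, s ≫ g, Category.assoc _ _ _⟩
  exact h1 hx

lemma FAC_nat (W : MotP.Frobenius C) {Y Z : C} (g : Y ⟶ Z) :
    g ≫ W.F.app Z = W.F.app Y ≫ g := W.F.naturality g

lemma FAC_fix (W : MotP.Frobenius C) {A X Y Z : C} (f : A ⟶ X) (hf : f ≫ W.F.app X = f)
    (Θ : X ⟶ Y) (g : Y ⟶ Z) : ((f ≫ Θ) ≫ g) ≫ W.F.app Z = (f ≫ Θ) ≫ g := by
  rw [Category.assoc, FAC_nat W g, Category.assoc, ← Category.assoc Θ, FAC_nat W Θ,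
    Category.assoc, ← Category.assoc f, hf, Category.assoc]

lemma FAC_back {T A X Y : C} (Θ : X ⟶ Y) [IsIso Θ] (x : A ⟶ X) (h : x ≫ Θ ∈ thru T A Y) :
    x ∈ thru T A X := by
  have h2 := FAC_post (inv Θ) _ h
  rw [Category.assoc, IsIso.hom_inv_id, Category.comp_id] at h2
  exact h2

lemma FAC_iso (W : MotP.Frobenius C) {Y Z : C} (i : Y ≅ Z) (h : Fac W Z) : Fac W Y := by
  intro A x hx
  have h1 : (x ≫ i.hom) ≫ fr W Z = x ≫ i.hom := by
    unfold fr
    rw [Category.assoc, FAC_nat, ← Category.assoc]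
    exact congrArg (fun t => t ≫ i.hom) hx
  have h2 := FAC_post i.inv _ (h A _ h1)
  rw [Category.assoc, i.hom_inv_id, Category.comp_id] at h2
  exact h2

lemma FAC_unit (W : MotP.Frobenius C) (U : C) (c : ℚ) (hc : W.F.app U = c • 𝟙 U)
    (hc1 : c = 1 → Nonempty (U ≅ 𝟙_ C)) : Fac W U := by
  intro A x hx
  by_cases h1 : c = 1
  · obtain ⟨i⟩ := hc1 h1
    refine Submodule.subset_span ⟨x ≫ i.hom, i.inv, ?_⟩
    rw [Category.assoc, i.hom_inv_id, Category.comp_id]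
  · have h2 : c • x = x := by
      have h3 : x ≫ (c • 𝟙 U) = x := by
        rw [← hc]
        exact hx
      rw [Linear.comp_smul, Category.comp_id] at h3
      exact h3
    have h3 : (c - 1) • x = 0 := by rw [sub_smul, h2, one_smul, sub_self]
    rcases smul_eq_zero.mp h3 with h4 | h4
    · exact absurd (sub_eq_zero.mp h4) h1
    · rw [h4]
      exact Submodule.zero_mem _

/-! ## The product of the operators -/

private def FAC_rc (X Z : C) : End Z →* Module.End ℚ (X ⟶ Z) where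
  toFun o := Linear.rightComp ℚ X (show Z ⟶ Z from o)
  map_one' := by
    ext f
    exact Category.comp_id f
  map_mul' a b := by
    ext f
    exact (Category.assoc f b a).symm

private def FAC_wh (Y Z : C) : End Z →* End (Y ⊗ Z) where
  toFun o := Y ◁ (show Z ⟶ Z from o)
  map_one' := MonoidalCategory.whiskerLeft_id Y Z
  map_mul' a b := MonoidalCategory.whiskerLeft_comp Y b a

private theorem FAC_ofFn {A B : Type*} [Monoid A] [Monoid B] (φ : A →* B) (n : ℕ) (o : Fin n → A) :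
    (List.ofFn (fun i => φ (o i))).prod = φ (List.ofFn o).prod := by
  rw [map_list_prod, List.map_ofFn]
  rfl

private def FAC_o (F : 𝟭 C ⟶ 𝟭 C) (M : ℤ[X] → C) (U : C) (l : List ℤ[X]) (i : ℕ) :
    End (Zo M U l) := opZ F M U l i

private def FAC_E (F : 𝟭 C ⟶ 𝟭 C) (M : ℤ[X] → C) (U : C) (l : List ℤ[X]) : End (Zo M U l) :=
  (List.ofFn (fun i : Fin l.length => FAC_o F M U l (i : ℕ))).prod

private theorem FAC_cons (F : 𝟭 C ⟶ 𝟭 C) (M : ℤ[X] → C) (U : C) (h : ℤ[X]) (l : List ℤ[X]) :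
    (FAC_E F M U (h :: l) : Zo M U (h :: l) ⟶ Zo M U (h :: l)) =
      (M h ◁ (FAC_E F M U l : Zo M U l ⟶ Zo M U l)) ≫ (F.app (M h) ▷ Zo M U l) := by
  have h1 : FAC_E F M U (h :: l) = FAC_o F M U (h :: l) 0 *
      (List.ofFn (fun i : Fin l.length => FAC_o F M U (h :: l) ((i : ℕ) + 1))).prod := by
    unfold FAC_E
    have e1 : List.ofFn (fun i : Fin (h :: l).length => FAC_o F M U (h :: l) (i : ℕ)) =
        List.ofFn (fun i : Fin (l.length + 1) => FAC_o F M U (h :: l) (i : ℕ)) := rfl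
    rw [e1, List.ofFn_succ, List.prod_cons]
    rfl
  have h2 : (List.ofFn (fun i : Fin l.length => FAC_o F M U (h :: l) ((i : ℕ) + 1))).prod =
      FAC_wh (M h) (Zo M U l) (FAC_E F M U l) := by
    unfold FAC_E
    rw [← FAC_ofFn]
    rfl
  rw [h1, h2]
  rfl

/-- the product of the operators is the Frobenius, on morphisms fixed by Frobenius -/
lemma FAC_prd (W : MotP.Frobenius C) (M : ℤ[X] → C) (U : C) (c : ℚ) (l : List ℤ[X]) (A : C)
    (f : A ⟶ Zo M U l) (hf : f ≫ W.F.app (Zo M U l) = f) (hU : W.F.app U = c • 𝟙 U) :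
    c • (List.ofFn (fun i : Fin l.length =>
      (Linear.rightComp ℚ A (opZ W.F M U l (i : ℕ)) : Module.End ℚ (A ⟶ Zo M U l)))).prod f =
        f := by
  have key : ∀ l : List ℤ[X], W.F.app (Zo M U l) =
      c • (FAC_E W.F M U l : Zo M U l ⟶ Zo M U l) := by
    intro l
    induction l with
    | nil =>
      have h0 : FAC_E W.F M U [] = 𝟙 U := by
        unfold FAC_E
        rfl
      rw [h0]
      exact hU
    | cons h l ih =>
      rw [FAC_cons]
      have h1 : W.F.app (Zo M U (h :: l)) = W.F.app (M h) ⊗ₘ W.F.app (Zo M U l) :=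
        W.F_tensor (M h) (Zo M U l)
      rw [h1, ih, MonoidalCategory.tensorHom_def']
      have h2 : M h ◁ (c • (FAC_E W.F M U l : Zo M U l ⟶ Zo M U l)) =
          c • (M h ◁ (FAC_E W.F M U l : Zo M U l ⟶ Zo M U l)) :=
        MonoidalLinear.whiskerLeft_smul _ _ _
      exact (congrArg (fun t => t ≫ W.F.app (M h) ▷ Zo M U l) h2).trans (Linear.smul_comp _ _ _ _ _ _)
  have h1 : (List.ofFn (fun i : Fin l.length =>
      (Linear.rightComp ℚ A (opZ W.F M U l (i : ℕ)) : Module.End ℚ (A ⟶ Zo M U l)))).prod =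
      FAC_rc A (Zo M U l) (FAC_E W.F M U l) := by
    unfold FAC_E
    rw [← FAC_ofFn]
    rfl
  have h2 : FAC_rc A (Zo M U l) (FAC_E W.F M U l) f =
      f ≫ (FAC_E W.F M U l : Zo M U l ⟶ Zo M U l) := rfl
  rw [h1, h2]
  conv_rhs => rw [← hf, key l]
  exact (Linear.comp_smul _ _ _ _ _ _).symm

/-! ## The two operators -/

/-- powers of an operator, transported by a morphism -/
lemma FAC_pow {X Y : C} (A₀ : C) (Θ : X ⟶ Y) (A : X ⟶ X) (B : End Y) (hAB : A ≫ Θ = Θ ≫ B)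
    (n : ℕ) (f : A₀ ⟶ X) :
    ((Linear.rightComp ℚ A₀ A : Module.End ℚ (A₀ ⟶ X)) ^ n) f ≫ Θ =
      (f ≫ Θ) ≫ (B ^ n : End Y) := by
  induction n with
  | zero =>
    rw [pow_zero, pow_zero]
    change f ≫ Θ = (f ≫ Θ) ≫ 𝟙 Y
    rw [Category.comp_id]
  | succ n ih =>
    rw [pow_succ', pow_succ']
    change (((Linear.rightComp ℚ A₀ A : Module.End ℚ (A₀ ⟶ X)) ^ n) f ≫ A) ≫ Θ =
      (f ≫ Θ) ≫ ((B ^ n : End Y) ≫ B)
    rw [Category.assoc, hAB, ← Category.assoc, ih, Category.assoc]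

/-- `ev2` transported by a morphism -/
lemma FAC_ev2 {X Y : C} (A₀ : C) (Θ : X ⟶ Y) (A A' : X ⟶ X) (B B' : End Y)
    (hAB : A ≫ Θ = Θ ≫ B) (hAB' : A' ≫ Θ = Θ ≫ B') (n : ℕ) (E : ℕ → ℕ → ℚ) (f : A₀ ⟶ X) :
    (ev2 n E (Linear.rightComp ℚ A₀ A : Module.End ℚ (A₀ ⟶ X))
      (Linear.rightComp ℚ A₀ A')) f ≫ Θ = (f ≫ Θ) ≫ (ev2 n E B B' : End Y) := by
  have h1 : ∀ i j : ℕ, ((Linear.rightComp ℚ A₀ A : Module.End ℚ (A₀ ⟶ X)) ^ i *
      (Linear.rightComp ℚ A₀ A' : Module.End ℚ (A₀ ⟶ X)) ^ j) f ≫ Θ =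
        (f ≫ Θ) ≫ (B ^ i * B' ^ j : End Y) := by
    intro i j
    rw [Module.End.mul_apply, FAC_pow A₀ Θ A B hAB, FAC_pow A₀ Θ A' B' hAB', End.mul_def,
      Category.assoc]
  unfold ev2
  rw [LinearMap.sum_apply, Preadditive.sum_comp]
  have h2 : (f ≫ Θ) ≫ (∑ i ∈ Finset.range n, ∑ j ∈ Finset.range n, E i j • (B ^ i * B' ^ j) : End Y)
      = ∑ i ∈ Finset.range n, (f ≫ Θ) ≫ (∑ j ∈ Finset.range n, E i j • (B ^ i * B' ^ j) : End Y) :=
    Preadditive.comp_sum _ _ _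
  rw [h2]
  refine Finset.sum_congr rfl (fun i _ => ?_)
  rw [LinearMap.sum_apply, Preadditive.sum_comp]
  have h3 : (f ≫ Θ) ≫ (∑ j ∈ Finset.range n, E i j • (B ^ i * B' ^ j) : End Y)
      = ∑ j ∈ Finset.range n, (f ≫ Θ) ≫ (E i j • (B ^ i * B' ^ j) : End Y) :=
    Preadditive.comp_sum _ _ _
  rw [h3]
  refine Finset.sum_congr rfl (fun j _ => ?_)
  rw [LinearMap.smul_apply, Linear.smul_comp, h1]
  exact (Linear.comp_smul _ _ _ (f ≫ Θ) (E i j) (B ^ i * B' ^ j : End Y)).symm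

/-- transport of the two operators along the associator -/
lemma FAC_two (F : 𝟭 C ⟶ 𝟭 C) (M : ℤ[X] → C) (U : C) (h : ℤ[X]) (l : List ℤ[X]) (j : ℕ)
    (Z : C) (π : Zo M U l ≅ M h ⊗ Z) (hπ : opZ F M U l j ≫ π.hom = π.hom ≫ F.app (M h) ▷ Z)
    (n : ℕ) (E : ℕ → ℕ → ℚ) (A : C) (f : A ⟶ Zo M U (h :: l)) :
    (ev2 n E (Linear.rightComp ℚ A (opZ F M U (h :: l) 0) : Module.End ℚ (A ⟶ Zo M U (h :: l)))
      (Linear.rightComp ℚ A (opZ F M U (h :: l) (j + 1)))) f ≫
      (M h ◁ π.hom ≫ (α_ (M h) (M h) Z).inv) =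
    (f ≫ (M h ◁ π.hom ≫ (α_ (M h) (M h) Z).inv)) ≫
      ((ev2 n E (opL F (M h)) (opR F (M h)) : End (M h ⊗ M h)) : M h ⊗ M h ⟶ M h ⊗ M h) ▷ Z := by
  have h1 : (F.app (M h) ▷ Zo M U l) ≫ (M h ◁ π.hom ≫ (α_ (M h) (M h) Z).inv) =
      (M h ◁ π.hom ≫ (α_ (M h) (M h) Z).inv) ≫ (MAIwhisk (M h ⊗ M h) Z (opL F (M h))) :=
    MAI_nat1 (F.app (M h)) π.hom
  have h2 : (M h ◁ opZ F M U l j) ≫ (M h ◁ π.hom ≫ (α_ (M h) (M h) Z).inv) =
      (M h ◁ π.hom ≫ (α_ (M h) (M h) Z).inv) ≫ (MAIwhisk (M h ⊗ M h) Z (opR F (M h))) :=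
    MAI_nat2 (opZ F M U l j) (F.app (M h)) π.hom hπ
  have h3 := FAC_ev2 A (M h ◁ π.hom ≫ (α_ (M h) (M h) Z).inv) (F.app (M h) ▷ Zo M U l)
    (M h ◁ opZ F M U l j) _ _ h1 h2 n E f
  rw [← MAI_map_ev2] at h3
  exact h3

/-- the two operators composed with the key identity: the morphism factors through the unit -/
lemma FAC_step (W : MotP.Frobenius C) (M : ℤ[X] → C) (U T : C) (h : ℤ[X]) (l : List ℤ[X]) (j : ℕ)
    (Z : C) (π : Zo M U l ≅ M h ⊗ Z)
    (hπ : opZ W.F M U l j ≫ π.hom = π.hom ≫ W.F.app (M h) ▷ Z)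
    (n : ℕ) (E : ℕ → ℕ → ℚ) (A : C) (f : A ⟶ Zo M U (h :: l))
    (hf : f ≫ W.F.app (Zo M U (h :: l)) = f)
    (m : ℕ) (s : Fin m → (T ⟶ M h ⊗ M h)) (r : Fin m → (M h ⊗ M h ⟶ T))
    (hE : ev2 n E (opL W.F (M h)) (opR W.F (M h)) = ∑ k, r k ≫ s k) (hT : Fac W (T ⊗ Z)) :
    (ev2 n E (Linear.rightComp ℚ A (opZ W.F M U (h :: l) 0) :
        Module.End ℚ (A ⟶ Zo M U (h :: l)))
      (Linear.rightComp ℚ A (opZ W.F M U (h :: l) (j + 1)))) f ∈
        thru (𝟙_ C) A (Zo M U (h :: l)) := by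
  have h1 := FAC_two W.F M U h l j Z π hπ n E A f
  rw [hE] at h1
  have h2 : (f ≫ (M h ◁ π.hom ≫ (α_ (M h) (M h) Z).inv)) ≫
      ((∑ k, r k ≫ s k : M h ⊗ M h ⟶ M h ⊗ M h)) ▷ Z ∈ thru (𝟙_ C) A ((M h ⊗ M h) ⊗ Z) := by
    rw [sum_whiskerRight, Preadditive.comp_sum]
    refine Submodule.sum_mem _ (fun k _ => ?_)
    rw [comp_whiskerRight, ← Category.assoc]
    apply FAC_post
    apply hT
    exact FAC_fix W f hf (M h ◁ π.hom ≫ (α_ (M h) (M h) Z).inv) (r k ▷ Z)
  rw [← h1] at h2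
  have h5 : IsIso (M h ◁ π.hom ≫ (α_ (M h) (M h) Z).inv) := inferInstance
  exact FAC_back (M h ◁ π.hom ≫ (α_ (M h) (M h) Z).inv) _ h2

end

theorem t_FAC : S_FAC.{v, u} := by
  have hWEI : S_WEI := t_WEI t_OMB
  have hDXY : S_DXY := t_DXY t_OMB hWEI
  intro C _ _ _ _ _ _ _ _ W q S S₀ D hq hS hS0 hind
  have hmon := t_MON C W q S D hq
  have key : ∀ n : ℕ, ∀ l : List ℤ[X], l.length = n → ∀ a b e : ℕ, (∀ h ∈ l, h ∈ S₀) →
      Fac W (Zo D.M (D.U a b e) l) := by
    intro n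
    induction n using Nat.strong_induction_on with
    | _ n ih =>
    intro l hln a b e hl
    obtain ⟨c, hc, ⟨k, hk⟩, hc1⟩ := hmon.1 a b e
    rcases l with _ | ⟨h, l⟩
    · exact FAC_unit W (D.U a b e) c hc hc1
    · -- the inductive step
      have hhS0 : h ∈ S₀ := hl h List.mem_cons_self
      have hFO : ∀ x ∈ h :: l, x ∈ FO q := fun x hx => hS (hS0 (hl x hx))
      have hfo := hFO h List.mem_cons_self
      have hq1 : 1 ≤ q := by omega
      have hmo : ∀ x ∈ h :: l, x.Monic := fun x hx => (hFO x hx).2.1.1.1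
      obtain ⟨E, hE⟩ := hDXY q h hq1 (hmo h List.mem_cons_self) hfo.2.2
      obtain ⟨m', s, r, hsr⟩ := t_KEY_all C W q S D h E hq1 (hS0 hhS0) hfo.1
        (hmo h List.mem_cons_self) hfo.2.2 (fun a ha b hb hab => by rw [hE a ha b hb, if_pos hab])
        (fun a ha b hb hab => by rw [hE a ha b hb, if_neg hab])
      intro A f hf
      have hget : ∀ i : Fin (l.length + 1), (h :: l)[(i : ℕ)]'i.isLt ∈ h :: l :=
        fun i => List.getElem_mem _
      apply FAC_alg t_ALG (thru (𝟙_ C) A (Zo D.M (D.U a b e) (h :: l))) l.length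
        (fun i => (Linear.rightComp ℚ A (opZ W.F D.M (D.U a b e) (h :: l) (i : ℕ)) :
          Module.End ℚ (A ⟶ Zo D.M (D.U a b e) (h :: l))))
        (fun i => (weil q ((h :: l)[(i : ℕ)]'i.isLt)).map (Int.castRingHom ℚ)) c
        (Finset.univ.filter (fun j : Fin l.length => l[(j : ℕ)] = h)) (2 * h.natDegree) E f
      · intro i v hv
        exact FAC_post _ v hv
      · intro i j
        apply LinearMap.ext
        intro x
        change (x ≫ opZ W.F D.M (D.U a b e) (h :: l) (j : ℕ)) ≫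
            opZ W.F D.M (D.U a b e) (h :: l) (i : ℕ) =
          (x ≫ opZ W.F D.M (D.U a b e) (h :: l) (i : ℕ)) ≫
            opZ W.F D.M (D.U a b e) (h :: l) (j : ℕ)
        rw [Category.assoc, Category.assoc, t_COM C W.F D.M (D.U a b e) (h :: l) j i]
      · intro i
        exact ((hWEI q _ hq1 (hmo _ (hget i))).2.2.2 (hFO _ (hget i)).2.2).1
      · intro i
        have hP := D.root _ (hS0 (hl _ (hget i)))
        have e1 : aeval (Mot.component W.F (D.M ((h :: l)[(i : ℕ)]'i.isLt)))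
            ((weil q ((h :: l)[(i : ℕ)]'i.isLt)).map (Int.castRingHom ℚ)) = 0 := by
          rw [← hP, aeval_def, aeval_def, eval₂_map]
          congr 1
          exact RingHom.ext_int _ _
        have e2 := PLZ_aux W.F D.M (D.U a b e) _ (h :: l) (i : ℕ) i.isLt e1
        have e3 := Polynomial.aeval_algHom_apply (PLZ_sec A (Zo D.M (D.U a b e) (h :: l)))
          (show End (Zo D.M (D.U a b e) (h :: l)) from opZ W.F D.M (D.U a b e) (h :: l) (i : ℕ))
          ((weil q ((h :: l)[(i : ℕ)]'i.isLt)).map (Int.castRingHom ℚ))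
        rw [e2, map_zero] at e3
        exact e3
      · -- independence
        intro α hα hprod
        have hαm : ∀ i : Fin (l.length + 1), α i ∈ Om q ((h :: l)[(i : ℕ)]'i.isLt) := by
          intro i
          rw [← (hWEI q _ hq1 (hmo _ (hget i))).2.2.1 (α i)]
          have h1 := hα i
          rw [← algebraMap_int_eq, aeval_map_algebraMap] at h1
          exact h1
        have h1 := hind (List.ofFn (fun i : Fin (l.length + 1) =>
          ((h :: l)[(i : ℕ)]'i.isLt, α i))) (by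
            intro x hx
            rw [List.mem_ofFn] at hx
            obtain ⟨i, rfl⟩ := hx
            exact ⟨hl _ (hget i), hαm i⟩) (-k) (by
              rw [List.map_ofFn]
              have h2 : (List.ofFn (Prod.snd ∘ fun i : Fin (l.length + 1) =>
                  ((h :: l)[(i : ℕ)]'i.isLt, α i))).prod = ∏ i, α i := List.prod_ofFn
              rw [h2]
              have h3 : (algebraMap ℚ Qb c) ^ 2 = (q : Qb) ^ k := by
                rw [← map_pow, hk, map_zpow₀, map_natCast]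
              have h4 : (algebraMap ℚ Qb c) ^ 2 * (∏ i, α i) ^ 2 = 1 := by
                rw [← mul_pow, hprod, one_pow]
              rw [h3] at h4
              rw [zpow_neg]
              exact eq_inv_of_mul_eq_one_right h4) (h, α 0) (by
                rw [List.mem_ofFn]
                exact ⟨0, rfl⟩)
        rw [List.mem_ofFn] at h1
        obtain ⟨i, hi⟩ := h1
        have hi1 : (h :: l)[(i : ℕ)]'i.isLt = h := (Prod.ext_iff.mp hi).1
        have hi2 : α i = (q : Qb) / α 0 := (Prod.ext_iff.mp hi).2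
        have ha0 : α 0 ∈ Om q h := hαm 0
        rcases Fin.eq_zero_or_eq_succ i with h2 | ⟨j, rfl⟩
        · exfalso
          rw [h2] at hi2
          exact ((t_OMB h.natDegree q h hq1 (hmo h List.mem_cons_self) rfl).2.2.2.2
            hfo.2.2.1).1 (α 0) ha0 hi2
        · refine ⟨j, Finset.mem_filter.mpr ⟨Finset.mem_univ j, hi1⟩, ?_⟩
          have h3 : α j.succ ∈ Om q h := by
            have h4 := hαm j.succ
            rw [hi1] at h4
            exact h4
          rw [hE (α 0) ha0 (α j.succ) h3, if_pos hi2]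
      · exact FAC_prd W D.M (D.U a b e) c (h :: l) A f hf hc
      · intro j hj
        have hj1 : l[(j : ℕ)] = h := (Finset.mem_filter.mp hj).2
        obtain ⟨π, hπ⟩ := t_MOV C W.F D.M (D.U a b e) l (j : ℕ) j.isLt
        obtain ⟨Z, hZ⟩ : ∃ Z, Z = Zo D.M (D.U a b e) (l.eraseIdx (j : ℕ)) := ⟨_, rfl⟩
        have hlt : (l.eraseIdx (j : ℕ)).length < n := by
          have h1 := List.length_eraseIdx_of_lt j.isLt
          rw [List.length_cons] at hln
          omega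
        have hmem : ∀ x ∈ l.eraseIdx (j : ℕ), x ∈ S₀ := fun x hx =>
          hl x (List.mem_cons_of_mem h (List.mem_of_mem_eraseIdx hx))
        have hT : Fac W (D.T ⊗ Z) := by
          rw [hZ]
          obtain ⟨i1⟩ := (t_WRD C D.M (D.U a b e) (l.eraseIdx (j : ℕ))).1 D.T
          obtain ⟨i2⟩ := hmon.2.2.2.1
          obtain ⟨i3⟩ := hmon.2.1 1 0 0 a b e
          obtain ⟨i4⟩ := (t_WRD C D.M (D.T ⊗ D.U a b e) (l.eraseIdx (j : ℕ))).2.1
            (D.U (1 + a) (0 + b) (0 + e)) ⟨whiskerRightIso i2 (D.U a b e) ≪≫ i3⟩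
          exact FAC_iso W (i1 ≪≫ i4) (ih _ hlt _ rfl _ _ _ hmem)
        have hgen : ∀ x : ℤ[X], x = h → ∀ (π : Zo D.M (D.U a b e) l ≅ D.M x ⊗ Z),
            opZ W.F D.M (D.U a b e) l (j : ℕ) ≫ π.hom = π.hom ≫ W.F.app (D.M x) ▷ Z →
            (ev2 (2 * h.natDegree) E
              (Linear.rightComp ℚ A (opZ W.F D.M (D.U a b e) (h :: l) 0) :
                Module.End ℚ (A ⟶ Zo D.M (D.U a b e) (h :: l)))
              (Linear.rightComp ℚ A (opZ W.F D.M (D.U a b e) (h :: l) ((j : ℕ) + 1)))) f ∈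
                thru (𝟙_ C) A (Zo D.M (D.U a b e) (h :: l)) := by
          rintro x rfl π hπ
          exact FAC_step W D.M (D.U a b e) D.T x l (j : ℕ) Z π hπ _ E A f hf m' s r hsr hT
        subst hZ
        exact hgen _ hj1 π hπ
  intro a b e l hl
  exact key l.length l rfl a b e hl

end

end Pool.Agent.WAV
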