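import Pool.Agent.WAV.Stmts
import Pool.Agent.TJ2.AsmC

/-!
# Module PRJ: the eigenvalue `q ^ n` of Frobenius on a generated object (helper51)
-/

open CategoryTheory MonoidalCategory BraidedCategory Limits Polynomial

universe v u

namespace Pool.Agent.WAV

open Pool.Agent.TJ2

noncomputable section

set_option linter.unusedSectionVars false

section

variable {C : Type u} [Category.{v} C] [Preadditive C] [Linear ℚ C] [MonoidalCategory C]
  [SymmetricCategory C] [MonoidalPreadditive C] [MonoidalLinear ℚ C] [RightRigidCategory C]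

lemma fr_nat (W : MotP.Frobenius C) {X Y : C} (f : X ⟶ Y) : fr W X ≫ f = f ≫ fr W Y :=
  (W.F.naturality f).symm

lemma thru_left {T A A' B : C} (y : A' ⟶ A) {x : A ⟶ B} (hx : x ∈ thru T A B) :
    y ≫ x ∈ thru T A' B := by
  induction hx using Submodule.span_induction with
  | mem x h =>
    obtain ⟨r, s, rfl⟩ := h
    exact Submodule.subset_span ⟨y ≫ r, s, (Category.assoc _ _ _).symm⟩
  | zero => rw [Limits.comp_zero]; exact Submodule.zero_mem _
  | add a b _ _ ha hb => rw [Preadditive.comp_add]; exact Submodule.add_mem _ ha hb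
  | smul r a _ ha => rw [Linear.comp_smul]; exact Submodule.smul_mem _ r ha

lemma thru_right {T A B B' : C} (y : B ⟶ B') {x : A ⟶ B} (hx : x ∈ thru T A B) :
    x ≫ y ∈ thru T A B' := by
  induction hx using Submodule.span_induction with
  | mem x h =>
    obtain ⟨r, s, rfl⟩ := h
    exact Submodule.subset_span ⟨r, s ≫ y, Category.assoc _ _ _⟩
  | zero => rw [Limits.zero_comp]; exact Submodule.zero_mem _
  | add a b _ _ ha hb => rw [Preadditive.add_comp]; exact Submodule.add_mem _ ha hb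
  | smul r a _ ha => rw [Linear.smul_comp]; exact Submodule.smul_mem _ r ha

lemma Fac_dom (W : MotP.Frobenius C) {P : C → Prop} (hP : ∀ Y, P Y → Fac W Y) {Z : C}
    (h : Dom P Z) : Fac W Z := by
  obtain ⟨κ, hκ, Y, i, p, hY, hs⟩ := h
  intro A x hx
  have h1 : x = ∑ k, (x ≫ i k) ≫ p k := by
    calc x = x ≫ 𝟙 Z := (Category.comp_id x).symm
      _ = x ≫ ∑ k, i k ≫ p k := by rw [hs]
      _ = ∑ k, x ≫ i k ≫ p k := Preadditive.comp_sum _ _ _
      _ = ∑ k, (x ≫ i k) ≫ p k := Finset.sum_congr rfl fun k _ => (Category.assoc _ _ _).symm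
  rw [h1]
  refine Submodule.sum_mem _ fun k _ => thru_right _ (hP _ (hY k) A (x ≫ i k) ?_)
  rw [Category.assoc, ← fr_nat, ← Category.assoc, hx]

lemma Fac_iso (W : MotP.Frobenius C) {Y Z : C} (i : Y ≅ Z) (h : Fac W Z) : Fac W Y := by
  intro A x hx
  have h1 : x = (x ≫ i.hom) ≫ i.inv := by rw [Category.assoc, i.hom_inv_id, Category.comp_id]
  rw [h1]
  refine thru_right _ (h A _ ?_)
  rw [Category.assoc, ← fr_nat, ← Category.assoc, hx]

/-- polynomials in the Frobenius are natural -/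
lemma aeval_nat (W : MotP.Frobenius C) {X Y : C} (f : X ⟶ Y) (P : ℚ[X]) :
    ((aeval (Mot.component W.F X) P : End X) : X ⟶ X) ≫ f =
      f ≫ ((aeval (Mot.component W.F Y) P : End Y) : Y ⟶ Y) := by
  induction P using Polynomial.induction_on with
  | C a =>
    rw [aeval_C, aeval_C]
    change (a • 𝟙 X) ≫ f = f ≫ (a • 𝟙 Y)
    rw [Linear.smul_comp, Linear.comp_smul, Category.id_comp, Category.comp_id]
  | add p q hp hq =>
    rw [map_add, map_add]
    exact (Preadditive.add_comp _ _ _ _ _ _).trans ((congrArg₂ (· + ·) hp hq).trans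
      (Preadditive.comp_add _ _ _ _ _ _).symm)
  | monomial n a ih =>
    rw [pow_succ, ← mul_assoc, map_mul, aeval_X, mul_comm, ← mul_comm]
    rw [map_mul (aeval (Mot.component W.F Y)), aeval_X]
    change (fr W X ≫ ((aeval (Mot.component W.F X) (Polynomial.C a * Polynomial.X ^ n) : End X) : X ⟶ X)) ≫ f =
      f ≫ (fr W Y ≫ ((aeval (Mot.component W.F Y) (Polynomial.C a * Polynomial.X ^ n) : End Y) : Y ⟶ Y))
    rw [Category.assoc, ih, ← Category.assoc, fr_nat, Category.assoc]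

lemma aeval_dom (W : MotP.Frobenius C) {κ : Type} [Fintype κ] {Z : C} (Y : κ → C)
    (i : ∀ k, Z ⟶ Y k) (p : ∀ k, Y k ⟶ Z) (hs : ∑ k, i k ≫ p k = 𝟙 Z) (P : ℚ[X])
    (h : ∀ k, aeval (Mot.component W.F (Y k)) P = 0) : aeval (Mot.component W.F Z) P = 0 := by
  have h1 : ((aeval (Mot.component W.F Z) P : End Z) : Z ⟶ Z) =
      ∑ k, i k ≫ ((aeval (Mot.component W.F (Y k)) P : End (Y k)) : Y k ⟶ Y k) ≫ p k := by
    calc ((aeval (Mot.component W.F Z) P : End Z) : Z ⟶ Z) =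
        ((aeval (Mot.component W.F Z) P : End Z) : Z ⟶ Z) ≫ 𝟙 Z := (Category.comp_id _).symm
      _ = ((aeval (Mot.component W.F Z) P : End Z) : Z ⟶ Z) ≫ ∑ k, i k ≫ p k := by rw [hs]
      _ = ∑ k, ((aeval (Mot.component W.F Z) P : End Z) : Z ⟶ Z) ≫ i k ≫ p k :=
        Preadditive.comp_sum _ _ _
      _ = _ := Finset.sum_congr rfl fun k _ => by
        rw [← Category.assoc, aeval_nat, Category.assoc]
  refine h1.trans (Finset.sum_eq_zero fun k _ => ?_)
  rw [h k]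
  change i k ≫ (0 : Y k ⟶ Y k) ≫ p k = 0
  rw [Limits.zero_comp, Limits.comp_zero]

lemma Ssm_dom (W : MotP.Frobenius C) {P : C → Prop} (hP : ∀ Y, P Y → Ssm W Y) {Z : C}
    (h : Dom P Z) : Ssm W Z := by
  classical
  obtain ⟨κ, hκ, Y, i, p, hY, hs⟩ := h
  choose R hR0 hR using fun k => (hP _ (hY k)).1
  refine ⟨⟨∏ k, R k, Finset.prod_ne_zero_iff.2 fun k _ => hR0 k, ?_⟩, ?_⟩
  · refine aeval_dom W Y i p hs _ fun k => ?_
    rw [← Finset.prod_erase_mul _ _ (Finset.mem_univ k), map_mul, hR k, mul_zero]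
  · intro A x t hx
    have key : ∀ k, (x ≫ i k) ≫ fr W (Y k) = t • (x ≫ i k) := by
      intro k
      apply (hP _ (hY k)).2
      have h1 : (x ≫ i k) ≫ fr W (Y k) - t • x ≫ i k = (x ≫ fr W Z - t • x) ≫ i k := by
        rw [Preadditive.sub_comp, Category.assoc, ← fr_nat, Category.assoc, Linear.smul_comp]
      rw [h1, Category.assoc, ← fr_nat W (i k), ← Category.assoc, hx, Linear.smul_comp]
    have h2 : x = ∑ k, (x ≫ i k) ≫ p k := by
      calc x = x ≫ 𝟙 Z := (Category.comp_id x).symm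
        _ = x ≫ ∑ k, i k ≫ p k := by rw [hs]
        _ = ∑ k, x ≫ i k ≫ p k := Preadditive.comp_sum _ _ _
        _ = ∑ k, (x ≫ i k) ≫ p k := Finset.sum_congr rfl fun k _ => (Category.assoc _ _ _).symm
    calc x ≫ fr W Z = (∑ k, (x ≫ i k) ≫ p k) ≫ fr W Z := by rw [← h2]
      _ = ∑ k, ((x ≫ i k) ≫ p k) ≫ fr W Z := Preadditive.sum_comp _ _ _
      _ = ∑ k, t • ((x ≫ i k) ≫ p k) := Finset.sum_congr rfl fun k _ => by
        rw [Category.assoc, ← fr_nat, ← Category.assoc, key k, Linear.smul_comp]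
      _ = t • ∑ k, (x ≫ i k) ≫ p k := Finset.smul_sum.symm
      _ = t • x := by rw [← h2]

lemma Ssm_iso (W : MotP.Frobenius C) {Y Z : C} (i : Y ≅ Z) (h : Ssm W Z) : Ssm W Y :=
  Ssm_dom W (P := fun Z => Ssm W Z) (fun _ h => h)
    ⟨Unit, inferInstance, fun _ => Z, fun _ => i.hom, fun _ => i.inv, fun _ => h, by simp⟩

/-- the map `v ↦ v ▷ E` with `(_ ⊗ E') ⊗ E ≅ _` -/
def untw {E E' : C} (j : E' ⊗ E ≅ 𝟙_ C) (Z : C) : Z ≅ (Z ⊗ E') ⊗ E :=
  (ρ_ Z).symm ≪≫ whiskerLeftIso Z j.symm ≪≫ (α_ Z E' E).symm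

lemma untw_nat {E E' : C} (j : E' ⊗ E ≅ 𝟙_ C) {A Y : C} (x : A ⟶ Y) :
    (untw j A).hom ≫ (x ▷ E') ▷ E = x ≫ (untw j Y).hom := by
  unfold untw
  simp only [Iso.trans_hom, Iso.symm_hom, whiskerLeftIso_hom, Category.assoc]
  rw [← associator_inv_naturality_left, whisker_exchange_assoc,
    ← rightUnitor_inv_naturality_assoc]

lemma fac_twist (W : MotP.Frobenius C) (E E' : C) (j : E' ⊗ E ≅ 𝟙_ C) (t : ℚ) (ht : t ≠ 0)
    (hE' : W.F.app E' = t⁻¹ • 𝟙 E') (Y : C) (hF : Fac W (Y ⊗ E')) (A : C) (x : A ⟶ Y)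
    (hx : x ≫ fr W Y = t • x) : x ∈ thru E A Y := by
  have hfr : fr W (Y ⊗ E') = t⁻¹ • (fr W Y ▷ E') := by
    have h1 : fr W (Y ⊗ E') = W.F.app Y ⊗ₘ W.F.app E' := W.F_tensor Y E'
    rw [h1, hE', MonoidalCategory.tensorHom_def]
    have h2 : Y ◁ (t⁻¹ • 𝟙 E') = t⁻¹ • 𝟙 (Y ⊗ E') := by
      rw [MonoidalLinear.whiskerLeft_smul, whiskerLeft_id]
    refine (congrArg (fun z => (W.F.app Y ▷ E') ≫ z) h2).trans ?_
    refine (Linear.comp_smul _ _ _ _ _ _).trans ?_
    exact congrArg (fun z => t⁻¹ • z) (Category.comp_id _)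
  have hw : (x ▷ E') ≫ fr W (Y ⊗ E') = x ▷ E' := by
    rw [hfr, Linear.comp_smul, ← comp_whiskerRight, hx, MonoidalLinear.smul_whiskerRight,
      smul_smul, inv_mul_cancel₀ ht, one_smul]
  have hmem := hF _ _ hw
  have key : ∀ v : A ⊗ E' ⟶ Y ⊗ E', v ∈ thru (𝟙_ C) (A ⊗ E') (Y ⊗ E') →
      (untw j A).hom ≫ v ▷ E ≫ (untw j Y).inv ∈ thru E A Y := by
    intro v hv
    induction hv using Submodule.span_induction with
    | mem v h =>
      obtain ⟨r, s, rfl⟩ := h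
      refine Submodule.subset_span ⟨(untw j A).hom ≫ r ▷ E ≫ (λ_ E).hom,
        (λ_ E).inv ≫ s ▷ E ≫ (untw j Y).inv, ?_⟩
      simp
    | zero =>
      rw [MonoidalPreadditive.zero_whiskerRight, Limits.zero_comp, Limits.comp_zero]
      exact Submodule.zero_mem _
    | add a b _ _ ha hb =>
      rw [MonoidalPreadditive.add_whiskerRight, Preadditive.add_comp, Preadditive.comp_add]
      exact Submodule.add_mem _ ha hb
    | smul r a _ ha =>
      rw [MonoidalLinear.smul_whiskerRight, Linear.smul_comp, Linear.comp_smul]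
      exact Submodule.smul_mem _ r ha
  have h1 := key _ hmem
  rw [← Category.assoc, untw_nat, Category.assoc, Iso.hom_inv_id, Category.comp_id] at h1
  exact h1

/-- a polynomial in the Frobenius as a morphism -/
def pf (W : MotP.Frobenius C) (Y : C) (P : ℚ[X]) : Y ⟶ Y := aeval (Mot.component W.F Y) P

/-- reduction of the multiplicity of a semisimple rational eigenvalue -/
lemma ssm_mult (W : MotP.Frobenius C) {Y : C} (h : Ssm W Y) (t : ℚ) (Q : ℚ[X]) (m : ℕ)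
    (hm : aeval (Mot.component W.F Y) ((Polynomial.X - Polynomial.C t) ^ m * Q) = 0) :
    aeval (Mot.component W.F Y) ((Polynomial.X - Polynomial.C t) * Q) = 0 := by
  have hstep : ∀ P : ℚ[X], pf W Y ((Polynomial.X - Polynomial.C t) * P) =
      pf W Y P ≫ fr W Y - t • pf W Y P := by
    intro P
    have h0 : aeval (Mot.component W.F Y) ((Polynomial.X - Polynomial.C t) * P) =
        (aeval (Mot.component W.F Y) P) * Mot.component W.F Y -
          algebraMap ℚ (End Y) t * (aeval (Mot.component W.F Y) P) := by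
      rw [sub_mul, map_sub, mul_comm Polynomial.X P, map_mul, aeval_X, map_mul, aeval_C]
    have h1 : pf W Y ((Polynomial.X - Polynomial.C t) * P) =
        fr W Y ≫ pf W Y P - pf W Y P ≫ (t • 𝟙 Y) := h0
    rw [h1, fr_nat, Linear.comp_smul, Category.comp_id]
  induction m with
  | zero =>
    rw [pow_zero, one_mul] at hm
    rw [map_mul, hm, mul_zero]
  | succ m ih =>
    rcases Nat.eq_zero_or_pos m with rfl | hpos
    · rw [zero_add, pow_one] at hm
      exact hm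
    · apply ih
      obtain ⟨k, rfl⟩ : ∃ k, m = k + 1 := ⟨m - 1, by omega⟩
      have h1 := h.2 Y (pf W Y ((Polynomial.X - Polynomial.C t) ^ k * Q)) t (by
        rw [← sub_eq_zero, ← hstep, ← hstep]
        have e1 : (Polynomial.X - Polynomial.C t) * ((Polynomial.X - Polynomial.C t) *
            ((Polynomial.X - Polynomial.C t) ^ k * Q)) =
            (Polynomial.X - Polynomial.C t) ^ (k + 1 + 1) * Q := by ring
        rw [e1]
        exact hm)
      rw [pow_succ', mul_assoc]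
      exact (hstep _).trans (sub_eq_zero.2 h1)

end

theorem t_PRJ (hFAC : S_FAC.{v, u}) (hSSM : S_SSM.{v, u}) : S_PRJ.{v, u} := by
  classical
  intro C _ _ _ _ _ _ _ _ W q D hq Y hY n
  have hq2 : 2 ≤ q := hq.two_le
  have hq0 : (q : ℚ) ≠ 0 := by
    have : q ≠ 0 := by omega
    exact_mod_cast this
  obtain ⟨S₀, hS₀, hrep, htw⟩ := t_REP t_OMB t_FULC q (by omega)
  have hind : ∀ (l : List (ℤ[X] × Qb)), (∀ x ∈ l, x.1 ∈ S₀ ∧ x.2 ∈ Om q x.1) →
      ∀ (k : ℤ), (l.map Prod.snd).prod ^ 2 = (q : Qb) ^ k →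
        ∀ x ∈ l, (x.1, (q : Qb) / x.2) ∈ l := by
    intro l hl k hk x hx
    have h1 := t_IND_all q hq l (fun x hx => ⟨hS₀ (hl x hx).1, (hl x hx).2⟩)
      (fun x hx y hy => htw _ (hl x hx).1 _ (hl y hy).1) 2 k (by norm_num) hk x.1 x.2
    refine List.count_pos_iff.1 (h1 ▸ ?_)
    exact List.count_pos_iff.2 hx
  have hF := hFAC C W q (Sel q) S₀ D hq2 (fun h hh => hh.1) hS₀ hind
  have hS := hSSM C W q (Sel q) D hq2 (fun h hh => hh.1)
  obtain ⟨hI1, hI2, hI3, hI4⟩ := t_INZ t_WRD t_MON C W q (Sel q) S₀ D hq2 hS₀ hrep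
  have hDom : ∀ Z, Gen D.Obj Z → Dom (D.InZ S₀) Z := fun Z hZ =>
    t_DOM C D.Obj (D.InZ S₀) hI1 hI2 hI3 hI4 Z hZ
  have hFac : ∀ Z, Gen D.Obj Z → Fac W Z := by
    intro Z hZ
    refine Fac_dom W (P := D.InZ S₀) ?_ (hDom Z hZ)
    rintro Y ⟨a, b, e, l, hl, ⟨i⟩⟩
    exact Fac_iso W i (hF a b e l hl)
  have hSsm : Ssm W Y := by
    refine Ssm_dom W (P := D.InZ S₀) ?_ (hDom Y hY)
    rintro Y ⟨a, b, e, l, hl, ⟨i⟩⟩
    exact Ssm_iso W i (hS a b e l fun h hh => hS₀ (hl h hh))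
  -- the twisting objects
  obtain ⟨i0⟩ := D.unitT
  have hT'gen : Gen D.Obj D.T' := by
    obtain ⟨k⟩ := MON_dual i0 ((β_ D.T' D.T) ≪≫ i0)
    exact Gen.summand (D.T)ᘁ D.T' k.inv k.hom k.inv_hom_id (Gen.dual _ (Gen.of _ (Or.inl rfl)))
  have hT'n : Gen D.Obj (Mot.T D.T' n) := by
    induction n with
    | zero => exact Gen.unit
    | succ n ih => exact Gen.tensor _ _ ih hT'gen
  obtain ⟨j⟩ : Nonempty (Mot.T D.T' n ⊗ Mot.T D.T n ≅ 𝟙_ C) := by
    rw [← toSkeleton_eq_toSkeleton_iff, Skeleton.toSkeleton_tensorObj, MON_sk_T, MON_sk_T,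
      ← mul_pow]
    have h1 : toSkeleton D.T' * toSkeleton D.T = 1 := by
      rw [mul_comm, ← Skeleton.toSkeleton_tensorObj, Skeleton.one_eq]
      exact toSkeleton_eq_toSkeleton_iff.mpr ⟨i0⟩
    rw [h1, one_pow]
    rfl
  have hE' : W.F.app (Mot.T D.T' n) = ((q : ℚ) ^ n)⁻¹ • 𝟙 (Mot.T D.T' n) := by
    rw [← inv_pow]
    exact MON_frob_T W _ (MON_frob_T' W D hq2) n
  -- the polynomial
  obtain ⟨⟨P, hP0, hP⟩, hss⟩ := id hSsm
  obtain ⟨Q, hQ1, hQ2⟩ := Polynomial.exists_eq_pow_rootMultiplicity_mul_and_not_dvd P hP0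
    ((q : ℚ) ^ n)
  rw [hQ1] at hP
  have h1 := ssm_mult W hSsm _ Q _ hP
  refine ⟨Q, fun h0 => hQ2 (Polynomial.dvd_iff_isRoot.2 h0), h1, ?_⟩
  refine fac_twist W (Mot.T D.T n) (Mot.T D.T' n) j _ (pow_ne_zero n hq0) hE' Y
    (hFac _ (Gen.tensor _ _ hY hT'n)) Y _ ?_
  rw [sub_mul, map_sub, mul_comm Polynomial.X Q, map_mul, aeval_X, map_mul, aeval_C,
    sub_eq_zero] at h1
  rw [← fr_nat]
  refine Eq.trans (show _ = _ from h1) ?_
  change (((aeval (Mot.component W.F Y) Q : End Y) : Y ⟶ Y) ≫ ((q : ℚ) ^ n • 𝟙 Y)) = _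
  rw [Linear.comp_smul, Category.comp_id]

end

end Pool.Agent.WAV
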