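import Pool.Agent.WAV.Stmts
import Pool.Agent.TJ2.AsmC

/-!
# The Frobenius of a word is killed by a squarefree polynomial (MP_cb388a_ag, module SSM)
-/

open CategoryTheory MonoidalCategory BraidedCategory Limits Polynomial TensorProduct

universe v u

namespace Pool.Agent.WAV

open Pool.Agent.TJ2

noncomputable section

/-- The product of two commuting elements killed by squarefree polynomials is killed by a squarefree
polynomial. -/
theorem SSM_mul {A : Type*} [Ring A] [Algebra ℚ A] (a b : A) (hab : Commute a b) (P Q : ℚ[X])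
    (hP : Squarefree P) (hQ : Squarefree Q) (ha : aeval a P = 0) (hb : aeval b Q = 0) :
    ∃ R : ℚ[X], Squarefree R ∧ aeval (a * b) R = 0 := by
  let I : Ideal ℚ[X] := Ideal.span {P}
  let J : Ideal ℚ[X] := Ideal.span {Q}
  have hI : ∀ p ∈ I, aeval a p = 0 := by
    intro p hp
    obtain ⟨c, rfl⟩ := Ideal.mem_span_singleton'.mp hp
    rw [map_mul, ha, mul_zero]
  have hJ : ∀ p ∈ J, aeval b p = 0 := by
    intro p hp
    obtain ⟨c, rfl⟩ := Ideal.mem_span_singleton'.mp hp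
    rw [map_mul, hb, mul_zero]
  let φa : (ℚ[X] ⧸ I) →ₐ[ℚ] A := Ideal.Quotient.liftₐ I (aeval a) hI
  let φb : (ℚ[X] ⧸ J) →ₐ[ℚ] A := Ideal.Quotient.liftₐ J (aeval b) hJ
  have e1 : ∀ p : ℚ[X], φa (Ideal.Quotient.mk I p) = aeval a p := fun p =>
    Ideal.Quotient.liftₐ_apply I (aeval a) hI _
  have e2 : ∀ p : ℚ[X], φb (Ideal.Quotient.mk J p) = aeval b p := fun p =>
    Ideal.Quotient.liftₐ_apply J (aeval b) hJ _
  have hc : ∀ x y, Commute (φa x) (φb y) := by
    intro x y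
    obtain ⟨p, rfl⟩ := Ideal.Quotient.mk_surjective x
    obtain ⟨r, rfl⟩ := Ideal.Quotient.mk_surjective y
    rw [e1, e2]
    have h1 : Commute a (aeval b r) := by
      induction r using Polynomial.induction_on' with
      | add r s hr hs => rw [map_add]; exact hr.add_right hs
      | monomial n c =>
        rw [aeval_monomial]
        exact Commute.mul_right (show Commute a (algebraMap ℚ A c) from (Algebra.commutes c a).symm)
          (hab.pow_right n)
    induction p using Polynomial.induction_on' with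
    | add r s hr hs => rw [map_add]; exact hr.add_left hs
    | monomial n c =>
      rw [aeval_monomial]
      exact Commute.mul_left (show Commute (algebraMap ℚ A c) (aeval b r) from
        Algebra.commutes c _) (h1.pow_left n)
  let φ : (ℚ[X] ⧸ I) ⊗[ℚ] (ℚ[X] ⧸ J) →ₐ[ℚ] A := Algebra.TensorProduct.lift φa φb hc
  have : FiniteDimensional ℚ (ℚ[X] ⧸ I) := (AdjoinRoot.powerBasis hP.ne_zero).finite
  have : FiniteDimensional ℚ (ℚ[X] ⧸ J) := (AdjoinRoot.powerBasis hQ.ne_zero).finite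
  let x : (ℚ[X] ⧸ I) ⊗[ℚ] (ℚ[X] ⧸ J) :=
    (Algebra.TensorProduct.includeLeft : (ℚ[X] ⧸ I) →ₐ[ℚ] (ℚ[X] ⧸ I) ⊗[ℚ] (ℚ[X] ⧸ J))
      (Ideal.Quotient.mkₐ ℚ I X)
  let y : (ℚ[X] ⧸ I) ⊗[ℚ] (ℚ[X] ⧸ J) :=
    (Algebra.TensorProduct.includeRight : (ℚ[X] ⧸ J) →ₐ[ℚ] (ℚ[X] ⧸ I) ⊗[ℚ] (ℚ[X] ⧸ J))
      (Ideal.Quotient.mkₐ ℚ J X)
  have hx : aeval x P = 0 := by
    change aeval ((Algebra.TensorProduct.includeLeft : (ℚ[X] ⧸ I) →ₐ[ℚ] (ℚ[X] ⧸ I) ⊗[ℚ] (ℚ[X] ⧸ J))
      (Ideal.Quotient.mkₐ ℚ I X)) P = 0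
    rw [aeval_algHom_apply, aeval_algHom_apply, aeval_X_left_apply]
    have : Ideal.Quotient.mkₐ ℚ I P = 0 := by
      rw [Ideal.Quotient.mkₐ_eq_mk, Ideal.Quotient.eq_zero_iff_mem]
      exact Ideal.mem_span_singleton_self P
    rw [this, map_zero]
  have hy : aeval y Q = 0 := by
    change aeval ((Algebra.TensorProduct.includeRight : (ℚ[X] ⧸ J) →ₐ[ℚ] (ℚ[X] ⧸ I) ⊗[ℚ] (ℚ[X] ⧸ J))
      (Ideal.Quotient.mkₐ ℚ J X)) Q = 0
    rw [aeval_algHom_apply, aeval_algHom_apply, aeval_X_left_apply]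
    have : Ideal.Quotient.mkₐ ℚ J Q = 0 := by
      rw [Ideal.Quotient.mkₐ_eq_mk, Ideal.Quotient.eq_zero_iff_mem]
      exact Ideal.mem_span_singleton_self Q
    rw [this, map_zero]
  let f := Algebra.lmul ℚ ((ℚ[X] ⧸ I) ⊗[ℚ] (ℚ[X] ⧸ J)) x
  let g := Algebra.lmul ℚ ((ℚ[X] ⧸ I) ⊗[ℚ] (ℚ[X] ⧸ J)) y
  have hf : f.IsSemisimple := by
    apply Module.End.isSemisimple_of_squarefree_aeval_eq_zero hP
    change aeval (Algebra.lmul ℚ ((ℚ[X] ⧸ I) ⊗[ℚ] (ℚ[X] ⧸ J)) x) P = 0
    rw [aeval_algHom_apply, hx, map_zero]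
  have hg : g.IsSemisimple := by
    apply Module.End.isSemisimple_of_squarefree_aeval_eq_zero hQ
    change aeval (Algebra.lmul ℚ ((ℚ[X] ⧸ I) ⊗[ℚ] (ℚ[X] ⧸ J)) y) Q = 0
    rw [aeval_algHom_apply, hy, map_zero]
  have hfg : Commute f g := by
    have m1 : Algebra.lmul ℚ ((ℚ[X] ⧸ I) ⊗[ℚ] (ℚ[X] ⧸ J)) (x * y) = f * g := map_mul _ x y
    have m2 : Algebra.lmul ℚ ((ℚ[X] ⧸ I) ⊗[ℚ] (ℚ[X] ⧸ J)) (y * x) = g * f := map_mul _ y x
    change f * g = g * f
    rw [← m1, ← m2, mul_comm x y]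
  have hs := Module.End.IsSemisimple.mul_of_commute hfg hf hg
  refine ⟨minpoly ℚ (f * g), hs.minpoly_squarefree, ?_⟩
  have h1 : aeval (Algebra.lmul ℚ ((ℚ[X] ⧸ I) ⊗[ℚ] (ℚ[X] ⧸ J)) (x * y)) (minpoly ℚ (f * g)) = 0 := by
    rw [map_mul]
    exact minpoly.aeval ℚ (f * g)
  rw [aeval_algHom_apply] at h1
  have h2 : aeval (x * y) (minpoly ℚ (f * g)) = 0 := by
    have h3 : Algebra.lmul ℚ ((ℚ[X] ⧸ I) ⊗[ℚ] (ℚ[X] ⧸ J))
        (aeval (x * y) (minpoly ℚ (f * g))) 1 = 0 := by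
      rw [h1]
      rfl
    exact (mul_one (aeval (x * y) (minpoly ℚ (f * g)))).symm.trans h3
  have h3 : φ (x * y) = a * b := by
    rw [map_mul]
    congr 1
    · change φ ((Ideal.Quotient.mk I X) ⊗ₜ 1) = a
      rw [Algebra.TensorProduct.lift_tmul, map_one, mul_one, e1, aeval_X]
    · change φ (1 ⊗ₜ (Ideal.Quotient.mk J X)) = b
      rw [Algebra.TensorProduct.lift_tmul, map_one, one_mul, e2, aeval_X]
  rw [← h3, aeval_algHom_apply, h2, map_zero]

/-- An operator killed by a squarefree polynomial is semisimple at the eigenvalue `t`. -/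
theorem SSM_end {V : Type*} [AddCommGroup V] [Module ℚ V] (φ : Module.End ℚ V) (P : ℚ[X])
    (hP : Squarefree P) (h0 : aeval φ P = 0) (t : ℚ) (x : V)
    (hx : φ (φ x - t • x) = t • (φ x - t • x)) : φ x = t • x := by
  by_contra hne
  have hy : φ x - t • x ≠ 0 := fun h => hne (sub_eq_zero.mp h)
  have ev : Module.End.HasEigenvector φ t (φ x - t • x) :=
    ⟨Module.End.mem_eigenspace_iff.mpr hx, hy⟩
  have key : ∀ R : ℚ[X], aeval φ R (φ x - t • x) = R.eval t • (φ x - t • x) := fun R =>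
    Module.End.aeval_apply_of_hasEigenvector ev
  by_cases hPt : P.eval t = 0
  · obtain ⟨R, hR⟩ := Polynomial.dvd_iff_isRoot.mpr hPt
    have hRt : R.eval t ≠ 0 := by
      intro h
      obtain ⟨R', hR'⟩ := Polynomial.dvd_iff_isRoot.mpr h
      have hdvd : (X - Polynomial.C t) * (X - Polynomial.C t) ∣ P := ⟨R', by rw [hR, hR', mul_assoc]⟩
      exact Polynomial.not_isUnit_X_sub_C t (hP _ hdvd)
    have h1 : aeval φ R (φ x - t • x) = 0 := by
      have h2 : φ x - t • x = aeval φ (X - Polynomial.C t) x := by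
        rw [map_sub, aeval_X, aeval_C, LinearMap.sub_apply, Module.algebraMap_end_apply]
      rw [h2, ← Module.End.mul_apply, ← map_mul, mul_comm, ← hR, h0, LinearMap.zero_apply]
    rw [key R] at h1
    rcases smul_eq_zero.mp h1 with h | h
    · exact hRt h
    · exact hy h
  · have h1 := key P
    rw [h0, LinearMap.zero_apply] at h1
    rcases smul_eq_zero.mp h1.symm with h | h
    · exact hPt h
    · exact hy h

section Cat

variable {C : Type u} [Category.{v} C] [Preadditive C] [Linear ℚ C] [MonoidalCategory C]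
  [SymmetricCategory C] [MonoidalPreadditive C] [MonoidalLinear ℚ C] [RightRigidCategory C]

theorem SSM_of (W : MotP.Frobenius C) (Y : C) (P : ℚ[X]) (hP : Squarefree P)
    (h0 : aeval (Mot.component W.F Y) P = 0) : Ssm W Y := by
  refine ⟨⟨P, hP.ne_zero, h0⟩, ?_⟩
  intro A x t hx
  have h1 : aeval (PLZ_sec A Y (Mot.component W.F Y)) P = 0 := by
    rw [aeval_algHom_apply, h0, map_zero]
  exact SSM_end (PLZ_sec A Y (Mot.component W.F Y)) P hP h1 t x hx

theorem SSM_word (W : MotP.Frobenius C) (q : ℕ) (S : Set ℤ[X]) (D : AV W q S) (hq : 2 ≤ q)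
    (hS : S ⊆ FO q) (a b e : ℕ) : ∀ l : List ℤ[X], (∀ h ∈ l, h ∈ S) →
    ∃ P : ℚ[X], Squarefree P ∧ aeval (Mot.component W.F (Zo D.M (D.U a b e) l)) P = 0
  | [], _ => by
    obtain ⟨h1, -⟩ := t_MON C W q S D hq
    obtain ⟨c, hc, -⟩ := h1 a b e
    refine ⟨X - Polynomial.C c, (Polynomial.irreducible_X_sub_C c).squarefree, ?_⟩
    rw [map_sub, aeval_X, aeval_C, sub_eq_zero]
    exact hc
  | h :: l, hl => by
    obtain ⟨Q, hQ, hQ0⟩ := SSM_word W q S D hq hS a b e l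
      (fun k hk => hl k (List.mem_cons_of_mem _ hk))
    have hh : h ∈ S := hl h List.mem_cons_self
    have hFO := hS hh
    have hmon : h.Monic := hFO.2.1.1.1
    obtain ⟨-, -, -, h4⟩ := (t_WEI t_OMB) q h (by omega) hmon
    have hsq := (h4 hFO.2.2).1
    have hroot : aeval (Mot.component W.F (D.M h)) ((weil q h).map (Int.castRingHom ℚ)) = 0 := by
      rw [← D.root h hh, aeval_def, aeval_def, eval₂_map]
      congr 1
      exact RingHom.ext_int _ _
    have r1 : aeval (PLZ_right (D.M h) (Zo D.M (D.U a b e) l) (Mot.component W.F (D.M h)))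
        ((weil q h).map (Int.castRingHom ℚ)) = 0 := by
      rw [aeval_algHom_apply, hroot, map_zero]
    have r2 : aeval (PLZ_left (D.M h) (Zo D.M (D.U a b e) l)
        (Mot.component W.F (Zo D.M (D.U a b e) l))) Q = 0 := by
      rw [aeval_algHom_apply, hQ0, map_zero]
    have hc : Commute (PLZ_right (D.M h) (Zo D.M (D.U a b e) l) (Mot.component W.F (D.M h)))
        (PLZ_left (D.M h) (Zo D.M (D.U a b e) l)
          (Mot.component W.F (Zo D.M (D.U a b e) l))) :=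
      MonoidalCategory.whisker_exchange (W.F.app (D.M h)) (W.F.app (Zo D.M (D.U a b e) l))
    obtain ⟨R, hR, hR0⟩ := SSM_mul _ _ hc _ _ hsq hQ r1 r2
    refine ⟨R, hR, ?_⟩
    have e1 : (Mot.component W.F (Zo D.M (D.U a b e) (h :: l)) :
        End (Zo D.M (D.U a b e) (h :: l))) =
        PLZ_right (D.M h) (Zo D.M (D.U a b e) l) (Mot.component W.F (D.M h)) *
        PLZ_left (D.M h) (Zo D.M (D.U a b e) l)
          (Mot.component W.F (Zo D.M (D.U a b e) l)) :=
      (W.F_tensor (D.M h) (Zo D.M (D.U a b e) l)).trans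
        (MonoidalCategory.tensorHom_def' _ _)
    rw [e1]
    exact hR0

end Cat

theorem t_SSM : S_SSM.{v, u} := by
  intro C _ _ _ _ _ _ _ _ W q S D hq hS a b e l hl
  obtain ⟨P, hP, h0⟩ := SSM_word W q S D hq hS a b e l hl
  exact SSM_of W _ P hP h0

end

end Pool.Agent.WAV
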