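import Pool.Agent.WAV.Stmts
import Pool.Agent.GGap.LightFin

/-!
# Weil-etale motivic cohomology of abelian varieties: the module TSX

Tate conjecture and semisimplicity from the factorisation through sums of copies of `T ^ n`.
-/

set_option autoImplicit false

open CategoryTheory MonoidalCategory Limits TensorProduct Polynomial

universe u

namespace Pool.Agent.WAV

noncomputable section

section Abs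

variable {ℓ : Nat.Primes} {R : Type} [Ring R] [Algebra ℚ R] {H : Type} [AddCommGroup H]
  [Module ℤ_[ℓ] H]

lemma TSX_aeval (ψ : R →+* Module.End ℚ_[ℓ] (ℚ_[ℓ] ⊗[ℤ_[ℓ]] H)) (γ : R) (t : ℚ) (P : ℚ[X])
    (v : ℚ_[ℓ] ⊗[ℤ_[ℓ]] H) (hv : ψ γ v = (t : ℚ_[ℓ]) • v) :
    ψ (aeval γ P) v = ((P.eval t : ℚ) : ℚ_[ℓ]) • v := by
  rcases eq_or_ne v 0 with rfl | hne
  · rw [map_zero, smul_zero]
  · rw [WE.PAR.hom_aeval (K := ℚ_[ℓ]) ψ γ P]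
    have h1 : (ψ γ).HasEigenvector (t : ℚ_[ℓ]) v := by
      rw [Module.End.hasEigenvector_iff, Module.End.mem_eigenspace_iff]
      exact ⟨hv, hne⟩
    rw [Module.End.aeval_apply_of_hasEigenvector h1, Polynomial.eval_map]
    congr 1
    have h2 := Polynomial.eval₂_at_apply (p := P) (algebraMap ℚ ℚ_[ℓ]) t
    simpa using h2

omit [Algebra ℚ R] in
lemma TSX_one (N : ℤ) (v : ℚ_[ℓ] ⊗[ℤ_[ℓ]] H) (ψ : R →+* Module.End ℚ_[ℓ] (ℚ_[ℓ] ⊗[ℤ_[ℓ]] H))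
    (a : R) : ψ (N • a) v = (N : ℚ_[ℓ]) • ψ a v := by
  rw [map_zsmul, LinearMap.smul_apply, Int.cast_smul_eq_zsmul]

/-- an element whose image is in the span of the images of `Z` -/
lemma TSX_span (Z : Set H) (y : H) (h : (1 : ℚ_[ℓ]) ⊗ₜ[ℤ_[ℓ]] y ∈ Submodule.span ℚ_[ℓ]
    ((fun z : H => (1 : ℚ_[ℓ]) ⊗ₜ[ℤ_[ℓ]] z) '' Z)) :
    ∃ N : ℤ, N ≠ 0 ∧ N • y ∈ Submodule.span ℤ_[ℓ] Z := by
  obtain ⟨S, hS⟩ : ∃ S : Submodule ℤ_[ℓ] H, S = Submodule.span ℤ_[ℓ] Z := ⟨_, rfl⟩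
  let f : (ℚ_[ℓ] ⊗[ℤ_[ℓ]] H) →ₗ[ℚ_[ℓ]] (ℚ_[ℓ] ⊗[ℤ_[ℓ]] (H ⧸ S)) :=
    S.mkQ.baseChange ℚ_[ℓ]
  have h1 : Submodule.span ℚ_[ℓ] ((fun z : H => (1 : ℚ_[ℓ]) ⊗ₜ[ℤ_[ℓ]] z) '' Z) ≤
      LinearMap.ker f := by
    rw [Submodule.span_le]
    rintro _ ⟨z, hz, rfl⟩
    rw [SetLike.mem_coe, LinearMap.mem_ker]
    show (1 : ℚ_[ℓ]) ⊗ₜ[ℤ_[ℓ]] (S.mkQ z) = 0
    have h2 : S.mkQ z = 0 := by
      rw [Submodule.mkQ_apply, Submodule.Quotient.mk_eq_zero, hS]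
      exact Submodule.subset_span hz
    rw [h2, tmul_zero]
  have h3 : (1 : ℚ_[ℓ]) ⊗ₜ[ℤ_[ℓ]] (S.mkQ y) = 0 := h1 h
  obtain ⟨N, hN, hNy⟩ := WE.PAR.E_zero h3
  refine ⟨N, hN, ?_⟩
  rw [← map_zsmul, Submodule.mkQ_apply, Submodule.Quotient.mk_eq_zero, hS] at hNy
  exact hNy

variable (ψ : R →+* Module.End ℚ_[ℓ] (ℚ_[ℓ] ⊗[ℤ_[ℓ]] H)) (F : H →ₗ[ℤ_[ℓ]] H) (q n : ℕ) (γ : R)

lemma TSX_TC (hγ : ∀ x, ψ γ ((1 : ℚ_[ℓ]) ⊗ₜ[ℤ_[ℓ]] x) = q ^ n • ((1 : ℚ_[ℓ]) ⊗ₜ[ℤ_[ℓ]] F x))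
    (Q : ℚ[X]) (hQ : Q.eval ((q : ℚ) ^ n) ≠ 0) (G : Set R)
    (hG : aeval γ Q ∈ Submodule.span ℚ G) {Z : Type} (cl : Z → H)
    (hact : ∀ a ∈ G, ∃ N : ℤ, N ≠ 0 ∧ ∃ (z : Z) (c : H → ℤ_[ℓ]), ∀ y,
      ψ (N • a) ((1 : ℚ_[ℓ]) ⊗ₜ[ℤ_[ℓ]] y) = (1 : ℚ_[ℓ]) ⊗ₜ[ℤ_[ℓ]] (c y • cl z))
    (y : H) (hy : F y = y) :
    ∃ N : ℤ, N ≠ 0 ∧ N • y ∈ Submodule.span ℤ_[ℓ] (Set.range cl) := by
  obtain ⟨v, hv⟩ : ∃ v, v = (1 : ℚ_[ℓ]) ⊗ₜ[ℤ_[ℓ]] y := ⟨_, rfl⟩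
  have h1 : ψ γ v = (((q : ℚ) ^ n : ℚ) : ℚ_[ℓ]) • v := by
    rw [hv, hγ, hy, ← Nat.cast_smul_eq_nsmul ℚ_[ℓ]]
    push_cast
    rfl
  have h2 := TSX_aeval ψ γ _ Q v h1
  have h3 : ∀ a ∈ Submodule.span ℚ G, ψ a v ∈ Submodule.span ℚ_[ℓ]
      ((fun z : H => (1 : ℚ_[ℓ]) ⊗ₜ[ℤ_[ℓ]] z) '' (Set.range cl)) := by
    intro a ha
    induction ha using Submodule.span_induction with
    | mem a ha =>
      obtain ⟨N, hN, z, c, h⟩ := hact a ha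
      have h4 := h y
      rw [TSX_one, ← hv, WEt.one_smul'] at h4
      have hN' : (N : ℚ_[ℓ]) ≠ 0 := by exact_mod_cast hN
      have h5 : ψ a v = (N : ℚ_[ℓ])⁻¹ • ((c y : ℚ_[ℓ]) • ((1 : ℚ_[ℓ]) ⊗ₜ[ℤ_[ℓ]] cl z)) := by
        rw [← h4, smul_smul, inv_mul_cancel₀ hN', one_smul]
      rw [h5]
      exact Submodule.smul_mem _ _ (Submodule.smul_mem _ _
        (Submodule.subset_span ⟨cl z, ⟨z, rfl⟩, rfl⟩))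
    | zero =>
      rw [map_zero, LinearMap.zero_apply]
      exact Submodule.zero_mem _
    | add a b _ _ ha hb =>
      rw [map_add, LinearMap.add_apply]
      exact Submodule.add_mem _ ha hb
    | smul r a _ ha =>
      rw [WE.PAR.hom_smul (K := ℚ_[ℓ]) ψ r a, LinearMap.smul_apply]
      exact Submodule.smul_mem _ _ ha
  have h4 := h3 _ hG
  rw [h2] at h4
  have h5 : ((Q.eval ((q : ℚ) ^ n) : ℚ) : ℚ_[ℓ]) ≠ 0 := by exact_mod_cast hQ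
  have h6 := Submodule.smul_mem _ ((Q.eval ((q : ℚ) ^ n) : ℚ) : ℚ_[ℓ])⁻¹ h4
  rw [smul_smul, inv_mul_cancel₀ h5, one_smul, hv] at h6
  exact TSX_span _ y h6

lemma TSX_SS (hγ : ∀ x, ψ γ ((1 : ℚ_[ℓ]) ⊗ₜ[ℤ_[ℓ]] x) = q ^ n • ((1 : ℚ_[ℓ]) ⊗ₜ[ℤ_[ℓ]] F x))
    (hq : 0 < q) (Q : ℚ[X]) (hQ : Q.eval ((q : ℚ) ^ n) ≠ 0)
    (hker : aeval γ ((Polynomial.X - Polynomial.C ((q : ℚ) ^ n)) * Q) = 0)
    (z : H) (hz : F (F z - z) = F z - z) : WE.Tors (F z - z) := by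
  obtain ⟨v, hv⟩ : ∃ v, v = (1 : ℚ_[ℓ]) ⊗ₜ[ℤ_[ℓ]] z := ⟨_, rfl⟩
  obtain ⟨w, hw⟩ : ∃ w, w = (1 : ℚ_[ℓ]) ⊗ₜ[ℤ_[ℓ]] (F z - z) := ⟨_, rfl⟩
  obtain ⟨t, ht⟩ : ∃ t : ℚ, t = (q : ℚ) ^ n := ⟨_, rfl⟩
  have ht0 : (t : ℚ_[ℓ]) ≠ 0 := by
    have : t ≠ 0 := by
      rw [ht]
      exact pow_ne_zero _ (by exact_mod_cast hq.ne')
    exact_mod_cast this
  have h1 : ψ γ w = (t : ℚ_[ℓ]) • w := by
    rw [hw, hγ, hz, ← Nat.cast_smul_eq_nsmul ℚ_[ℓ], ht]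
    push_cast
    rfl
  have h2 : ψ (aeval γ (Polynomial.X - Polynomial.C t)) v = (t : ℚ_[ℓ]) • w := by
    rw [map_sub, map_sub, aeval_X, aeval_C, LinearMap.sub_apply]
    have h3 : ψ (algebraMap ℚ R t) v = (t : ℚ_[ℓ]) • v := by
      have h4 := WE.PAR.hom_smul (K := ℚ_[ℓ]) ψ t 1
      rw [map_one, ← Algebra.algebraMap_eq_smul_one] at h4
      rw [h4, LinearMap.smul_apply, Module.End.one_apply]
    have h5 : ψ γ v = (t : ℚ_[ℓ]) • ((1 : ℚ_[ℓ]) ⊗ₜ[ℤ_[ℓ]] F z) := by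
      rw [hv, hγ, ← Nat.cast_smul_eq_nsmul ℚ_[ℓ], ht]
      push_cast
      rfl
    rw [h3, h5, hv, hw, tmul_sub, smul_sub]
  have h3 : ψ (aeval γ ((Polynomial.X - Polynomial.C t) * Q)) v = 0 := by
    rw [ht, hker, map_zero, LinearMap.zero_apply]
  rw [mul_comm, map_mul, map_mul, Module.End.mul_apply, h2, map_smul, TSX_aeval ψ γ t Q w h1] at h3
  have h5 : ((Q.eval t : ℚ) : ℚ_[ℓ]) ≠ 0 := by
    rw [ht]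
    exact_mod_cast hQ
  have h6 : w = 0 := by
    rcases smul_eq_zero.1 h3 with h | h
    · exact absurd h ht0
    · exact (smul_eq_zero.1 h).resolve_left h5
  exact WE.PAR.E_zero (ℓ := ℓ) (hw ▸ h6)

end Abs

open MotP.GGap WEt in
theorem t_TSX : S_TSX.{u} := by
  intro C _ _ _ _ _ _ _ _ W M T hL X n hn Q hQ hker hthr ℓ hℓ
  have hℓ' : ℓ ≠ (M.coh X).p := by
    rw [M.char X]
    exact hℓ
  obtain ⟨m, e⟩ : ∃ m, n + m = (M.coh X).d := ⟨(M.coh X).d - n, by omega⟩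
  have hγ := (M.frob X).actE ℓ hℓ' n (2 * (n : ℤ))
  constructor
  · intro y hy
    obtain ⟨N, hN, h⟩ := TSX_TC (R := End (M.h X)) ((M.acts X).actE ℓ hℓ' n (2 * (n : ℤ)))
      (((M.coh X).E ℓ n).F (2 * (n : ℤ))) M.q n (Mot.component W.F (M.h X)) hγ Q hQ
      {z | ∃ (r : M.h X ⟶ Mot.T T n) (s : Mot.T T n ⟶ M.h X), z = r ≫ s} hthr
      ((M.coh X).cl ℓ n) (by
        rintro a ⟨r, s, rfl⟩
        obtain ⟨N, z, g, hN, h⟩ := hL X n m e r s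
        refine ⟨N, hN, z, fun y => ((M.coh X).duality n m e).num ℓ y g, fun y => ?_⟩
        have h1 := (M.ext X n m e).actE' ℓ hℓ' z g y
        rw [h] at h1
        exact h1) y hy
    refine ⟨N, hN, Submodule.span_mono ?_ h⟩
    rintro _ ⟨z, rfl⟩
    exact ⟨(((M.coh X).W n).res _).ap z, (((M.coh X).W n).res_image _ _).mp ⟨z, rfl⟩, rfl⟩
  · intro z hz
    exact TSX_SS (R := End (M.h X)) ((M.acts X).actE ℓ hℓ' n (2 * (n : ℤ)))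
      (((M.coh X).E ℓ n).F (2 * (n : ℤ))) M.q n (Mot.component W.F (M.h X)) hγ M.q_pos Q hQ hker
      z hz

end

end Pool.Agent.WAV
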