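import Pool.Agent.WAV.PRJ
import Pool.Agent.TJ2.Main2
import Pool.Agent.GGap.LightFin

/-!
# L^n(X) for almost all abelian varieties: assembly (MP_cb388a_ag, helper51)
-/

open CategoryTheory MonoidalCategory Limits Polynomial Filter

universe v u

namespace Pool.Agent.WAV

open Pool.Agent.TJ2 MotP.GGap

noncomputable section

/-- all groups of Weil-etale motivic cohomology are finitely generated -/
theorem fg (hFAC : S_FAC.{0, u}) (hSSM : S_SSM.{0, u}) (hTSX : S_TSX.{u})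
    (C : Type u) [Category.{0} C] [Preadditive C] [Linear ℚ C] [MonoidalCategory C]
    [SymmetricCategory C] [MonoidalPreadditive C] [MonoidalLinear ℚ C] [RightRigidCategory C]
    [HasFiniteBiproducts C] [IsIdempotentComplete C] (W : MotP.Frobenius C) (q : ℕ)
    (hq : IsPrimePow q) (D : AV W q (Sel q)) (M : Chow W) (hM : M.q = q) (hL : Lef M D.T)
    (X : M.V) (hX : Gen D.Obj (M.h X)) (n : ℕ) : (M.coh X).L n := by
  have hN : M.old.Nil X := by
    rintro a ⟨ℓ, hℓ, n, ha⟩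
    have h1 : MotP.NumTrivial (a : M.h X ⟶ M.h X) := M.old.triv X ℓ hℓ n a ha
    have h2 : (a : M.h X ⟶ M.h X) = 0 := (t_CAT_all C W q D hq).2 _ _ _ hX hX h1
    have h3 : a = 0 := h2
    rw [h3]
    exact IsNilpotent.zero
  have hTS : ∀ n, n ≤ (M.old.th X).d → M.old.TS X n := by
    intro n hn
    obtain ⟨ℓ, hℓ⟩ := WE.Fam.exists_ne M.p
    obtain ⟨Q, hQ0, hQ1, hQ2⟩ := t_PRJ hFAC hSSM C W q D hq (M.h X) hX n
    obtain ⟨h1, h2⟩ := hTSX C W M D.T hL X n hn Q (by rw [hM]; exact hQ0)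
      (by rw [hM]; exact hQ1) hQ2 ℓ hℓ
    exact ⟨ℓ, hℓ, h1, h2⟩
  rcases le_or_gt n (M.old.th X).d with h | h
  · exact M.old.L_of_TS t_PR0 t_NPR X hN hTS n h
  · exact t_NGD M.old X n h hN

end

end Pool.Agent.WAV
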