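import Pool.Agent.WAV.Lef
import Pool.Agent.TJ2.Stmts2
import Pool.Agent.TJ2.Stmts3

/-!
# Finite generation of Weil-etale motivic cohomology for almost all abelian varieties
(MP_cb388a_ag, helper51): definitions and statements of the modules

`Pool/Agent/TJ2` (helper2): the sets `Sel q` of ordinary real Weil polynomials of density one, the
independence theorem `S_IND`, the categorical theorem `S_CAT` (no numerically trivial morphisms).
`Pool/Agent/GGap`, `Pool/Agent/WEt`: `Chow W` (smooth projective varieties, their cohomology and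
their Chow motives) and the criterion: Tate + semisimplicity + nilpotence imply `L^n(X)`.

Here: every morphism into a generated object on which Frobenius acts as `q ^ n` factors through
sums of copies of `T ^ n` (a motivic form of the Tate conjecture), so that the invariants of
Frobenius in `H^(2n)(X̄, ℚ_ℓ(n))` are spanned by cycle classes.
-/

open CategoryTheory MonoidalCategory BraidedCategory Limits Polynomial

universe w v u

namespace Pool.Agent.WAV

open Pool.Agent.TJ2

noncomputable section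

section Cat

variable {C : Type u} [Category.{v} C] [Preadditive C] [Linear ℚ C] [MonoidalCategory C]
  [SymmetricCategory C] [MonoidalPreadditive C] [MonoidalLinear ℚ C] [RightRigidCategory C]

/-- the morphisms `A ⟶ B` which factor through a finite direct sum of copies of `T` -/
def thru (T A B : C) : Submodule ℚ (A ⟶ B) :=
  Submodule.span ℚ {z | ∃ (r : A ⟶ T) (s : T ⟶ B), z = r ≫ s}

/-- the Frobenius of `Y` (`W.F.app Y`, `Mot.component W.F Y`) as a morphism `Y ⟶ Y` -/
def fr (W : MotP.Frobenius C) (Y : C) : Y ⟶ Y := W.F.app Y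

/-- Every morphism into `Y` which is fixed by the Frobenius of `Y` factors through a sum of copies
of the unit. -/
def Fac (W : MotP.Frobenius C) (Y : C) : Prop :=
  ∀ (A : C) (x : A ⟶ Y), x ≫ fr W Y = x → x ∈ thru (𝟙_ C) A Y

/-- The Frobenius of `Y` satisfies a polynomial and is semisimple at all rational eigenvalues. -/
def Ssm (W : MotP.Frobenius C) (Y : C) : Prop :=
  (∃ P : ℚ[X], P ≠ 0 ∧ aeval (Mot.component W.F Y) P = 0) ∧
  ∀ (A : C) (x : A ⟶ Y) (t : ℚ),
    (x ≫ fr W Y - t • x) ≫ fr W Y = t • (x ≫ fr W Y - t • x) → x ≫ fr W Y = t • x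

end Cat

/-- FAC. As `t_MAI` (file `Pool/Agent/TJ2/MAI.lean`, theorem `S_MAI` with the same hypotheses), with
arbitrary morphisms `x : A ⟶ Zo D.M (D.U a b e) l` in place of sections. Strong induction on the
length of `l`. `l = []`: `F_U = c • 𝟙` (`S_MON`); `x = c • x`, so `x = 0` or `c = 1` and `U ≅ 𝟙_ C`.
`l = h :: l'`, `Z = Zo D.M U (h :: l')`: let `V = (A ⟶ Z)`, `φ i = Linear.rightComp ℚ A (opZ W.F D.M U
(h :: l') i)`, and `I = thru (𝟙_ C) A Z` which is stable under all `φ i`. Apply `S_ALG` to `V ⧸ I`, the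
induced operators, and the class of `x`: the operators commute (`S_COM`), they satisfy the squarefree
Weil polynomials (`PLZ_aux`, `PLZ_sec` in `Pool/Agent/TJ2/PLZ.lean`, `S_WEI`), `c • (∏ φ i) x = x` (the
proof of `t_PRD` gives `W.F.app Z = c • ∏ opZ i`, and `x ≫ W.F.app Z = x`), the independence condition is
as in `t_MAI`, and `ev2 n D (φ 0) (φ (j+1)) x` is in `I`: as in `MAI_step`, it is a sum of `((x ≫ ι) ≫
r k ▷ Z') ≫ (s k ▷ Z') ≫ ι⁻¹` with `r k ▷ Z' : (M h ⊗ M h) ⊗ Z' ⟶ T ⊗ Z'`, `T ⊗ Z'` is isomorphic to a shorter word, and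
`(x ≫ ι) ≫ r k ▷ Z' : A ⟶ T ⊗ Z'` is fixed by Frobenius (naturality of `W.F`), so it is in `thru (𝟙_ C)` by
induction. -/
def S_FAC : Prop :=
  ∀ (C : Type u) [Category.{v} C] [Preadditive C] [Linear ℚ C] [MonoidalCategory C]
    [SymmetricCategory C] [MonoidalPreadditive C] [MonoidalLinear ℚ C] [RightRigidCategory C]
    (W : MotP.Frobenius C) (q : ℕ) (S S₀ : Set ℤ[X]) (D : AV W q S), 2 ≤ q → S ⊆ FO q → S₀ ⊆ S →
    (∀ (l : List (ℤ[X] × Qb)), (∀ x ∈ l, x.1 ∈ S₀ ∧ x.2 ∈ Om q x.1) →
      ∀ (k : ℤ), (l.map Prod.snd).prod ^ 2 = (q : Qb) ^ k → ∀ x ∈ l, (x.1, (q : Qb) / x.2) ∈ l) →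
    ∀ (a b e : ℕ) (l : List ℤ[X]), (∀ h ∈ l, h ∈ S₀) → Fac W (Zo D.M (D.U a b e) l)

/-- SSM. Induction on `l`: the Frobenius of `Zo D.M U l` is killed by a squarefree polynomial over `ℚ`.
`l = []`: it is a scalar (`S_MON`). `h :: l`: `W.F.app (M h ⊗ Z) = W.F.app (M h) ⊗ₘ W.F.app Z` is the product
of the commuting elements `W.F.app (M h) ▷ Z` (killed by `weil q h`, which is squarefree over `ℚ` by `S_WEI` as
`h ∈ FO q` is full) and `M h ◁ W.F.app Z` of `End (M h ⊗ Z)`. Lemma: if `a`, `b` are commuting elements of a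
`ℚ`-algebra killed by squarefree polynomials then `a * b` is killed by a squarefree polynomial (left
multiplications on the finite-dimensional commutative algebra `ℚ[a, b]`:
`Module.End.isSemisimple_of_squarefree_aeval_eq_zero`, `Module.End.IsSemisimple.mul_of_commute`,
`Module.End.IsSemisimple.minpoly_squarefree`).
If `P` is squarefree, `P (F) = 0`: `P ≠ 0`; for `t : ℚ`, `x` with `x (F - t)² = 0` (composition on the right): if
`P.eval t ≠ 0`, `P = (X - t) R + C (P.eval t)`... in general `gcd (P, (X - t) ^ 2) ∣ X - t`, so `X - t` is a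
combination of `P` and `(X - t) ^ 2`, hence `x (F - t) = 0`. -/
def S_SSM : Prop :=
  ∀ (C : Type u) [Category.{v} C] [Preadditive C] [Linear ℚ C] [MonoidalCategory C]
    [SymmetricCategory C] [MonoidalPreadditive C] [MonoidalLinear ℚ C] [RightRigidCategory C]
    (W : MotP.Frobenius C) (q : ℕ) (S : Set ℤ[X]) (D : AV W q S), 2 ≤ q → S ⊆ FO q →
    ∀ (a b e : ℕ) (l : List ℤ[X]), (∀ h ∈ l, h ∈ S) → Ssm W (Zo D.M (D.U a b e) l)

/-- PRJ. The categorical theorem: for a generated object `Y` and `n : ℕ` there is a polynomial `Q` with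
`Q (q ^ n) ≠ 0` such that `Q` of the Frobenius of `Y` is killed by `F - q ^ n` and factors through a sum of
copies of `T ^ n`. -/
def S_PRJ : Prop :=
  ∀ (C : Type u) [Category.{v} C] [Preadditive C] [Linear ℚ C] [MonoidalCategory C]
    [SymmetricCategory C] [MonoidalPreadditive C] [MonoidalLinear ℚ C] [RightRigidCategory C]
    (W : MotP.Frobenius C) (q : ℕ) (D : AV W q (Sel q)), IsPrimePow q →
    ∀ (Y : C), Gen D.Obj Y → ∀ n : ℕ, ∃ Q : ℚ[X], Q.eval ((q : ℚ) ^ n) ≠ 0 ∧
      aeval (Mot.component W.F Y) ((X - Polynomial.C ((q : ℚ) ^ n)) * Q) = 0 ∧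
      ((aeval (Mot.component W.F Y) Q : End Y) : Y ⟶ Y) ∈ thru (Mot.T D.T n) Y Y

/-! ## The cohomological part -/

section Coh

open MotP.GGap WEt

variable {C : Type u} [Category.{0} C] [Preadditive C] [Linear ℚ C] [MonoidalCategory C]
  [SymmetricCategory C] [MonoidalPreadditive C] [MonoidalLinear ℚ C] [RightRigidCategory C]

/-- TSX. Let `γ = Mot.component W.F (M.h X)`, `t = q ^ n`, `e = Q.eval t ≠ 0`. (TC) `y` in `H^(2n)(X̄, ℤ_ℓ(n))` with
`F y = y`: `γ` acts on `1 ⊗ y` as `t` (`M.frob`, field `actE`), so `Q (γ)` acts as `e`. `Q (γ)` is a rational combination of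
composites `r ≫ s` through `T ^ n`, a multiple of which is `ext z g`, which maps `1 ⊗ y` to `1 ⊗ (num y g • cl z)`
(`M.ext`, field `actE'`). So `e • (1 ⊗ y)` is in the `ℚ_ℓ`-span of the `1 ⊗ cl z`, hence a multiple of `y` is, up to torsion, in the
`ℤ_ℓ`-span of the `cl z`, and `cl z ∈ Alg` (`cl z = cC (res z)`, `res z` is fixed by `F`: `res_image`). Note that a rational
number acts on `ℚ_ℓ ⊗ _` as its image (a ring homomorphism from a `ℚ`-algebra is `ℚ`-linear).
(SS) `F (F z - z) = F z - z`: `(γ - t) ^ 2` kills `v = 1 ⊗ z`, and `(γ - t) * Q (γ) = 0`; `Q = C e + (X - C t) * R`, so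
`e • (γ - t) v = 0`, `(γ - t) v = t • (1 ⊗ (F z - z)) = 0`, and `F z - z` is torsion (`1 ⊗ w = 0` in `ℚ_ℓ ⊗ C` implies that `w` is killed by a
power of `ℓ`; see `WE.PAR`/`WEt` files for this lemma). -/
def S_TSX : Prop :=
  ∀ (C : Type u) [Category.{0} C] [Preadditive C] [Linear ℚ C] [MonoidalCategory C]
    [SymmetricCategory C] [MonoidalPreadditive C] [MonoidalLinear ℚ C] [RightRigidCategory C]
    (W : MotP.Frobenius C) (M : Chow W) (T : C), Lef M T →
    ∀ (X : M.V) (n : ℕ), n ≤ (M.coh X).d → ∀ Q : ℚ[X], Q.eval ((M.q : ℚ) ^ n) ≠ 0 →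
      aeval (Mot.component W.F (M.h X)) ((Polynomial.X - Polynomial.C ((M.q : ℚ) ^ n)) * Q) = 0 →
      ((aeval (Mot.component W.F (M.h X)) Q : End (M.h X)) : M.h X ⟶ M.h X) ∈
        thru (Mot.T T n) (M.h X) (M.h X) →
      ∀ ℓ : Nat.Primes, ℓ ≠ M.p → (M.coh X).TC ℓ n ∧ (M.coh X).SS ℓ n

end Coh

end

end Pool.Agent.WAV
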