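import Pool.Agent.GGap.Light

/-!
# The Lefschetz motive in the framework of Chow W (MP_cb388a_ag, helper51)
-/

open CategoryTheory MonoidalCategory BraidedCategory Limits

universe u

namespace Pool.Agent.WAV

noncomputable section

open MotP.GGap WEt

variable {C : Type u} [Category.{0} C] [Preadditive C] [Linear ℚ C] [MonoidalCategory C]
  [SymmetricCategory C] [MonoidalPreadditive C] [MonoidalLinear ℚ C] [RightRigidCategory C]

/-- `T` is the Lefschetz motive for `M`: a composite `h X ⟶ T ^ n ⟶ h X` is, up to a non-zero integer,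
the exterior product of cycles of codimensions `n` and `d - n`. -/
def Lef {W : MotP.Frobenius C} (M : Chow W) (T : C) : Prop :=
  ∀ (X : M.V) (n m : ℕ) (e : n + m = (M.coh X).d) (r : M.h X ⟶ Mot.T T n)
    (s : Mot.T T n ⟶ M.h X), ∃ (N : ℤ) (z : (M.coh X).Cyc n) (g : (M.coh X).Cyc m), N ≠ 0 ∧
      (M.ext X n m e).ext z g = ((N • (r ≫ s) : M.h X ⟶ M.h X) : End (M.h X))

end

end Pool.Agent.WAV
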