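import Pool.Agent.WAV.Main0
import Pool.Agent.WAV.FAC
import Pool.Agent.WAV.SSM
import Pool.Agent.WAV.TSX

/-!
# L^n(X) for almost all abelian varieties: the final theorem (MP_cb388a_ag, helper51)
-/

open CategoryTheory MonoidalCategory Limits Polynomial Filter

universe u

namespace Pool.Agent.WAV

open Pool.Agent.TJ2 MotP.GGap

theorem main :
    ∃ S : ℕ → Set ℤ[X],
      (∀ q : ℕ, ∀ h ∈ S q, 1 ≤ h.natDegree ∧ h ∈ Ord h.natDegree q) ∧
      (∀ g : ℕ, 1 ≤ g → Tendsto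
        (fun q : {q : ℕ // IsPrimePow q} => ((S q ∩ Ord g q).ncard : ℝ) / (Ord g q).ncard)
        atTop (nhds 1)) ∧
      ∀ q : ℕ, IsPrimePow q → ∀ (C : Type u) [Category.{0} C] [Preadditive C] [Linear ℚ C]
        [MonoidalCategory C] [SymmetricCategory C] [MonoidalPreadditive C] [MonoidalLinear ℚ C]
        [RightRigidCategory C] [HasFiniteBiproducts C] [IsIdempotentComplete C]
        (W : MotP.Frobenius C) (D : AV W q (S q)) (M : Chow W), M.q = q → Lef M D.T →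
        ∀ X : M.V, Gen D.Obj (M.h X) → ∀ n : ℕ, (M.coh X).L n :=
  ⟨Sel, fun _ _ hh => ⟨hh.1.1, hh.1.2.1⟩, fun _ hg => density hg,
    fun q hq C _ _ _ _ _ _ _ _ _ _ W D M hM hL X hX n =>
      fg t_FAC t_SSM t_TSX C W q hq D M hM hL X hX n⟩

end Pool.Agent.WAV
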